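import Pool.Agent.Helper76.CV.Goals

/-!
# Project CV (MP_eec6f5_gt), packet CV-BAQ (helper90)
-/

set_option autoImplicit false

namespace Pool.Agent.Helper90.CV.BAQ

open Pool.Agent.Helper76.CV

theorem coord_le {n : ℕ} (y : E n) (i : Fin n) : |y i| ≤ ‖y‖ := by
  have h := PiLp.norm_apply_le y i
  rwa [Real.norm_eq_abs] at h

theorem core (S x w c2 τ η2 yη : ℝ) (hw : 0 < w) (hG : 0 < S + x) (hη : 0 ≤ η2)
    (hx : x * (w * τ) ^ 2 = yη ^ 2) (hcs : yη ^ 2 ≤ S * η2)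
    (hB : 1 + |c2| / w ^ 2 * (S / (S + x)) + 1 / w * √(S + x) ≤ 400 / 9 * √(S + x)) :
    |η2 + c2 * τ ^ 2| + 1 / w * √(S + x) * (η2 + (w * τ) ^ 2) ≤
      400 / 9 * √(S + x) * (η2 + (w * τ) ^ 2) := by
  have hT : 0 ≤ η2 + (w * τ) ^ 2 := by positivity
  have h1 : (S + x) * (w * τ) ^ 2 ≤ S * (η2 + (w * τ) ^ 2) := by
    have : (S + x) * (w * τ) ^ 2 = S * (w * τ) ^ 2 + x * (w * τ) ^ 2 := by ring
    rw [this, hx]
    linarith
  have h2 : (w * τ) ^ 2 ≤ S / (S + x) * (η2 + (w * τ) ^ 2) := by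
    rw [div_mul_eq_mul_div, le_div_iff₀ hG]
    linarith
  have h3 : |c2| * τ ^ 2 = |c2| / w ^ 2 * (w * τ) ^ 2 := by
    field_simp
  have h4 : |η2 + c2 * τ ^ 2| ≤ η2 + |c2| / w ^ 2 * (w * τ) ^ 2 := by
    rw [← h3]
    refine (abs_add_le _ _).trans ?_
    rw [abs_of_nonneg hη, abs_mul, abs_of_nonneg (sq_nonneg τ)]
  have h5 : |c2| / w ^ 2 * (w * τ) ^ 2 ≤
      |c2| / w ^ 2 * (S / (S + x) * (η2 + (w * τ) ^ 2)) :=
    mul_le_mul_of_nonneg_left h2 (by positivity)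
  have h6 : η2 ≤ η2 + (w * τ) ^ 2 := by linarith [sq_nonneg (w * τ)]
  have h7 := mul_le_mul_of_nonneg_right hB hT
  have h8 : (1 + |c2| / w ^ 2 * (S / (S + x)) + 1 / w * √(S + x)) * (η2 + (w * τ) ^ 2) =
      (η2 + (w * τ) ^ 2) + |c2| / w ^ 2 * (S / (S + x) * (η2 + (w * τ) ^ 2)) +
        1 / w * √(S + x) * (η2 + (w * τ) ^ 2) := by ring
  rw [h8] at h7
  linarith

theorem t (hF : BAF) (hC : BAC) (hN : BAN) : BAQ := by
  intro r y η c d c2 τ hy hcase hperp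
  have hw1 : |wr y - 1| ≤ 4 / 5 * √(1 - c) := by
    have h1 : wr y - 1 = 4 / 5 * y 0 := by
      unfold wr
      ring
    rw [h1, abs_mul, abs_of_pos (by norm_num : (0 : ℝ) < 4 / 5), ← hy,
      Real.sqrt_sq (norm_nonneg y)]
    exact mul_le_mul_of_nonneg_left (coord_le y 0) (by norm_num)
  have hB : 0 < wr y ∧ 0 < 1 - c + (d / wr y) ^ 2 ∧
      1 + |c2| / wr y ^ 2 * ((1 - c) / (1 - c + (d / wr y) ^ 2)) +
        1 / wr y * √(1 - c + (d / wr y) ^ 2) ≤ 400 / 9 * √(1 - c + (d / wr y) ^ 2) := by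
    rcases hcase with h | h | h
    · exact hF c d c2 (wr y) h hw1
    · exact hC c d c2 (wr y) h hw1
    · exact hN c d c2 (wr y) h hw1
  rw [← hy] at hB
  obtain ⟨h0, hG, hI⟩ := hB
  refine ⟨h0, hG, ?_⟩
  refine core (‖y‖ ^ 2) ((d / wr y) ^ 2) (wr y) c2 τ (‖η‖ ^ 2) (inner ℝ y η) h0 hG
    (sq_nonneg _) ?_ ?_ hI
  · have h1 : inner ℝ y η = -(d / wr y * (wr y * τ)) := by linarith
    rw [h1]
    ring
  · have h1 := abs_real_inner_le_norm y η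
    have h2 : |inner ℝ y η| ^ 2 ≤ (‖y‖ * ‖η‖) ^ 2 := pow_le_pow_left₀ (abs_nonneg _) h1 2
    rw [sq_abs, mul_pow] at h2
    exact h2

end Pool.Agent.Helper90.CV.BAQ
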