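import Pool.Agent.Helper76.CV.Goals

/-!
# Project CV (MP_eec6f5_gt), packet CV-NFT (helper90)
-/

set_option autoImplicit false

open scoped ContDiff
open Filter Topology

namespace Pool.Agent.Helper90.CV.NFT

open Pool.Agent.Helper76.CV

theorem t (_hWF1 : WF1) (hXB : XB) (hCJT : CJT) (hDEZ : DEZ) (hDEU : DEU) (hTNQ : TNQ) :
    NFT := by
  intro r D p z P a e hG hp hLf hTP he hz
  obtain ⟨hzs, hpz, hnear, hdH⟩ := hLf
  obtain ⟨hcos, -, -, -, -, -⟩ := hXB r D p hG hp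
  obtain ⟨ξ, hξ⟩ : ∃ ξ : E (r + 3), ξ = P p.1.2 - a p.1.1 := ⟨_, rfl⟩
  obtain ⟨v, hv⟩ : ∃ v : ℝ, v = √(‖ξ‖ ^ 2 + 1 / 10 ^ 6) := ⟨_, rfl⟩
  have hv0 : 0 < v := by rw [hv]; exact Real.sqrt_pos.mpr (by positivity)
  have hpe : p.2 = e * Z (‖ξ‖ ^ 2) := by rw [hpz, hξ]; exact hz.self_of_nhds
  have hpc : p.2 = Z (‖ξ‖ ^ 2) ∨ p.2 = -Z (‖ξ‖ ^ 2) := by
    rcases he with rfl | rfl
    · left; rw [hpe]; ring
    · right; rw [hpe]; ring
  have hee : e * e = 1 := by rcases he with rfl | rfl <;> norm_num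
  obtain ⟨n, hn⟩ : ∃ n : E (r + 3), n = p.1.2 - (sg v / v) • ξ := ⟨_, rfl⟩
  obtain ⟨m, hm⟩ : ∃ m : ℝ, m = (deriv D.C p.1.1 / 2 + sg v / v * inner ℝ ξ (deriv a p.1.1)) /
      wr p.1.2 := ⟨_, rfl⟩
  obtain ⟨hw, hnm, hineq⟩ := hTNQ r D p P a v m ξ n hG hp hTP hξ hv hpc hn hm
  have hcp : 0 < Real.cos p.2 := by rw [hcos]; exact Real.exp_pos _
  have hPξ : P ξ = ξ := by
    rw [hξ, map_sub, hTP.idem, hTP.Pa]
  have hξP : ∀ k, inner ℝ ξ (P k) = inner ℝ ξ k := by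
    intro k
    rw [← hTP.sym, hPξ]
  have hmw : ∀ h : ℝ, m * (wr p.1.2 * h) =
      (deriv D.C p.1.1 / 2 + sg v / v * inner ℝ ξ (deriv a p.1.1)) * h := by
    intro h
    rw [hm]
    field_simp
  -- trigonometry
  have hZv : Z (‖ξ‖ ^ 2) = 13 * W (4 / 25 - v) := by
    rw [hv]; rfl
  have hcosz : Real.cos (Z (‖ξ‖ ^ 2)) = Real.cos p.2 := by
    rcases hpc with h | h
    · rw [h]
    · rw [h, Real.cos_neg]
  have hsin : Real.sin p.2 = e * Real.sin (Z (‖ξ‖ ^ 2)) := by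
    rcases he with rfl | rfl
    · rw [hpe, one_mul, one_mul]
    · rw [hpe, neg_one_mul, Real.sin_neg, neg_one_mul]
  have hsg : Real.sin (Z (‖ξ‖ ^ 2)) * deriv W (4 / 25 - v) = Real.cos p.2 * sg v := by
    have h1 : sg v = Real.sin (Z (‖ξ‖ ^ 2)) / Real.cos (Z (‖ξ‖ ^ 2)) * deriv W (4 / 25 - v) := by
      unfold sg lam
      rw [← hZv, Real.tan_eq_sin_div_cos]
    rw [h1, hcosz]
    field_simp
  refine ⟨n, m, -(13 * Real.cos p.2), fderiv ℝ z p.1, hnm, ?_, ?_, ?_⟩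
  · have : 0 < 13 * Real.cos p.2 := by positivity
    exact (neg_lt_zero.mpr this).ne
  · intro ζ
    rw [hdH ζ]
    refine Prod.ext ?_ rfl
    show -(Real.sin p.2 * ζ.2) + 13 / 2 * Real.exp (-(13 / 2 * U D p.1)) *
        fderiv ℝ (U D) p.1 ζ.1 =
      -(13 * Real.cos p.2) * (inner ℝ n ζ.1.2 + m * (wr p.1.2 * ζ.1.1)) -
        Real.sin p.2 * (ζ.2 - fderiv ℝ z p.1 ζ.1)
    have e1 : fderiv ℝ z p.1 ζ.1 = e * (-(13 * deriv W (4 / 25 - v) *
        ((inner ℝ ξ ζ.1.2 - ζ.1.1 * inner ℝ ξ (deriv a p.1.1)) / v))) := by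
      have h1 : fderiv ℝ z p.1 =
          fderiv ℝ (fun x : ℝ × E (r + 3) => e * Z (‖P x.2 - a x.1‖ ^ 2)) p.1 :=
        Filter.EventuallyEq.fderiv_eq hz
      have h2 := hDEZ r P a p.1 ζ.1 hTP.sm
      rw [← hξ, ← hv, inner_sub_right, inner_smul_right, hξP] at h2
      rw [h1]
      rcases he with rfl | rfl
      · simp only [one_mul]
        exact h2
      · simp only [neg_one_mul]
        rw [fderiv_fun_neg]
        show -(fderiv ℝ (fun x : ℝ × E (r + 3) => Z (‖P x.2 - a x.1‖ ^ 2)) p.1 ζ.1) = _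
        rw [h2]
    rw [hDEU r D p.1 ζ.1 hG.sC, ← hcos, e1, hmw, hn, inner_sub_left, real_inner_smul_left]
    have h3 : Real.sin p.2 * (ζ.2 - e * (-(13 * deriv W (4 / 25 - v) *
        ((inner ℝ ξ ζ.1.2 - ζ.1.1 * inner ℝ ξ (deriv a p.1.1)) / v)))) =
        Real.sin p.2 * ζ.2 + 13 * (Real.cos p.2 * sg v) *
        ((inner ℝ ξ ζ.1.2 - ζ.1.1 * inner ℝ ξ (deriv a p.1.1)) / v) := by
      rw [← hsg, mul_sub]
      have : Real.sin p.2 * (e * (-(13 * deriv W (4 / 25 - v) *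
        ((inner ℝ ξ ζ.1.2 - ζ.1.1 * inner ℝ ξ (deriv a p.1.1)) / v)))) =
        -(13 * ((e * e) * Real.sin (Z (‖ξ‖ ^ 2)) * deriv W (4 / 25 - v)) *
        ((inner ℝ ξ ζ.1.2 - ζ.1.1 * inner ℝ ξ (deriv a p.1.1)) / v)) := by
        rw [hsin]; ring
      rw [this, hee]
      ring
    rw [h3]
    ring
  · intro T Y s u hT hY hs hcur hpu
    have hT0 : T u = p.1.1 := by rw [← hpu]
    have hY0 : Y u = p.1.2 := by rw [← hpu]
    have hcont : ContinuousAt (fun u' => ((T u', Y u'), s u')) u :=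
      (hT.continuousAt.prodMk hY.continuousAt).prodMk hs.continuousAt
    have hcont' : Tendsto (fun u' => ((T u', Y u'), s u')) (𝓝 u) (𝓝 p) := by
      have := hcont.tendsto
      rwa [hpu] at this
    have hcont1 : Tendsto (fun u' => (T u', Y u')) (𝓝 u) (𝓝 p.1) := by
      have h1 : ContinuousAt (fun u' => (T u', Y u')) u := hT.continuousAt.prodMk hY.continuousAt
      have h2 := h1.tendsto
      have h3 : (T u, Y u) = p.1 := by rw [← hpu]
      rwa [h3] at h2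
    have hev : ∀ᶠ u' in 𝓝 u, Real.cos (Z (‖P (Y u') - a (T u')‖ ^ 2)) =
        Real.exp (-(13 / 2 * U D (T u', Y u'))) := by
      filter_upwards [hcur, hcont'.eventually hnear, hcont1.eventually hz] with u' h1 h2 h3
      have h4 : s u' = z (T u', Y u') := h2 h1
      have h5 : z (T u', Y u') = e * Z (‖P (Y u') - a (T u')‖ ^ 2) := h3
      have h6 : Real.cos (s u') - Real.exp (-(13 / 2 * U D (T u', Y u'))) = 0 := by
        have : H D ((T u', Y u'), s u') = 0 := h1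
        exact congrArg Prod.fst this
      have h7 : Real.cos (s u') = Real.cos (Z (‖P (Y u') - a (T u')‖ ^ 2)) := by
        rw [h4, h5]
        rcases he with rfl | rfl
        · rw [one_mul]
        · rw [neg_one_mul, Real.cos_neg]
      rw [← h7]
      linarith
    obtain ⟨c1, c2⟩ := hCJT r D P a T Y u v ξ hG.sC hTP.sym hTP.idem hTP.Pa hTP.sm hT hY hev
      (by rw [hT0, hY0, hξ]) hv
    rw [hT0, hY0, ← hn, ← hmw] at c1 c2
    have h1 := hineq (deriv T u) (deriv Y u) c1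
    have h2 : inner ℝ n (deriv (deriv Y) u - (4 / 5 * wr p.1.2 * deriv T u ^ 2) • e0) +
          m * (wr p.1.2 * deriv (deriv T) u + 8 / 5 * deriv T u * deriv Y u 0) =
        -SQ P ξ (deriv a p.1.1) (deriv (deriv a) p.1.1) v (sg v) (sg1 v)
            (deriv (deriv D.C) p.1.1 / 2) (deriv T u) (deriv Y u) +
          (inner ℝ n (-((4 / 5 * wr p.1.2 * deriv T u ^ 2) • e0)) +
            m * (8 / 5 * deriv T u * deriv Y u 0)) := by
      rw [← c2, sub_eq_add_neg, inner_add_right]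
      ring
    rw [h2]
    exact h1

end Pool.Agent.Helper90.CV.NFT
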